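import Pool.Agent.G02.Stmts

/-! # Squad G02, row EXA: primes for recipe A -/

set_option autoImplicit false

namespace Pool.Agent.G02.H25

open Pool.Agent.G02

/-- The sign, the power of two and the odd part of a squarefree integer. -/
theorem split (k : ℤ) (hk : Squarefree k) : ∃ (e : ℤ) (i K : ℕ), (e = 1 ∨ e = -1) ∧ i ≤ 1 ∧
    Odd K ∧ Squarefree K ∧ k = e * 2 ^ i * K := by
  have h0 : k ≠ 0 := hk.ne_zero
  have hs : Squarefree k.natAbs := Int.squarefree_natAbs.2 hk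
  obtain ⟨e, he, hke⟩ : ∃ e : ℤ, (e = 1 ∨ e = -1) ∧ k = e * k.natAbs := by
    rcases lt_or_gt_of_ne h0 with h | h
    · refine ⟨-1, Or.inr rfl, ?_⟩
      omega
    · refine ⟨1, Or.inl rfl, ?_⟩
      omega
  rcases Nat.even_or_odd k.natAbs with hev | hod
  · obtain ⟨K, hK⟩ := hev
    have hK2 : k.natAbs = 2 * K := by omega
    have hKs : Squarefree K := hs.squarefree_of_dvd ⟨2, by omega⟩
    have hKo : Odd K := by
      rw [← Nat.not_even_iff_odd]
      rintro ⟨j, hj⟩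
      have h4 : 2 * 2 ∣ k.natAbs := ⟨j, by omega⟩
      have := hs 2 h4
      rw [Nat.isUnit_iff] at this
      omega
    refine ⟨e, 1, K, he, le_rfl, hKo, hKs, ?_⟩
    rw [hke, hK2]
    push_cast
    rcases he with rfl | rfl <;> simp
  · refine ⟨e, 0, k.natAbs, he, by omega, hod, hs, ?_⟩
    rw [pow_zero, mul_one]
    exact hke

/-- Divisibility by an odd prime. -/
theorem dvd_of (e : ℤ) (i K l : ℕ) (hl : l.Prime) (h2 : l ≠ 2) (he : e = 1 ∨ e = -1)
    (h : (l : ℤ) ∣ e * 2 ^ i * K) : (l : ℤ) ∣ (K : ℤ) := by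
  have hp : Prime (l : ℤ) := Nat.prime_iff_prime_int.1 hl
  rcases hp.dvd_or_dvd h with h1 | h1
  · exfalso
    rcases hp.dvd_or_dvd h1 with h3 | h3
    · have h4 : IsUnit (l : ℤ) := isUnit_of_dvd_unit h3 (by rcases he with rfl | rfl <;> simp)
      exact hp.not_isUnit h4
    · have h4 : (l : ℤ) ∣ ((2 : ℕ) : ℤ) := by
        have := hp.dvd_of_dvd_pow h3
        exact_mod_cast this
      have h5 := Int.natCast_dvd_natCast.1 h4
      exact h2 ((Nat.prime_dvd_prime_iff_eq hl Nat.prime_two).1 h5)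
  · exact h1

/-- Coprimality from prime divisors. -/
theorem cop_of (x : ℤ) (K : ℕ) (_hK : K ≠ 0) (hx : ¬ (2 : ℤ) ∣ x)
    (h : ∀ l : ℕ, l.Prime → (l : ℤ) ∣ (K : ℤ) → ¬ (l : ℤ) ∣ x) :
    IsCoprime x ((8 * K : ℕ) : ℤ) := by
  rw [Int.isCoprime_iff_gcd_eq_one]
  by_contra hne
  obtain ⟨l, hl, hd⟩ := Nat.exists_prime_and_dvd hne
  have h1 : (l : ℤ) ∣ x := (Int.natCast_dvd_natCast.2 hd).trans (Int.gcd_dvd_left _ _)
  have h2 : (l : ℤ) ∣ ((8 * K : ℕ) : ℤ) :=
    (Int.natCast_dvd_natCast.2 hd).trans (Int.gcd_dvd_right _ _)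
  have h3 : l ∣ 8 * K := Int.natCast_dvd_natCast.1 h2
  rcases hl.dvd_mul.1 h3 with h4 | h4
  · have h5 : l ∣ 2 ^ 3 := by simpa using h4
    have h6 := hl.dvd_of_dvd_pow h5
    have h7 := (Nat.prime_dvd_prime_iff_eq hl Nat.prime_two).1 h6
    subst h7
    exact hx h1
  · exact h l hl (Int.natCast_dvd_natCast.2 h4) h1

theorem leg_ne {l : ℕ} [Fact l.Prime] {x : ℤ} (h : legendreSym l x ≠ 0) : ¬ (l : ℤ) ∣ x := by
  intro hd
  apply h
  rw [legendreSym.eq_zero_iff]
  exact (ZMod.intCast_zmod_eq_zero_iff_dvd x l).2 hd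

theorem leg_congr {l : ℕ} [Fact l.Prime] {x y : ℤ} (h : x ≡ y [ZMOD l]) :
    legendreSym l x = legendreSym l y := by
  rw [legendreSym.mod l x, legendreSym.mod l y, h]

theorem leg_sq {l : ℕ} [Fact l.Prime] {x : ℤ} (h : ¬ (l : ℤ) ∣ x) : legendreSym l (x * x) = 1 := by
  rw [legendreSym.mul]
  have h0 : ((x : ℤ) : ZMod l) ≠ 0 := fun h0 => h ((ZMod.intCast_zmod_eq_zero_iff_dvd x l).1 h0)
  rcases legendreSym.eq_one_or_neg_one l h0 with h1 | h1 <;> rw [h1] <;> norm_num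

/-- **EXA**. -/
theorem exa (hres : ResStmt) (han : Pool.Agent.NJ.ANStmt) : ExaStmt := by
  intro k hk N
  obtain ⟨e, i, K, he, hi, hKo, hKs, hkK⟩ := split k hk
  have hK0 : K ≠ 0 := by
    rintro rfl
    exact absurd hKo (by decide)
  -- the sign
  obtain ⟨s, hs, hs1, hss⟩ : ∃ s : ℤ, (s = 1 ∨ s = -1) ∧ (K = 1 → s = 1) ∧
      (k ≠ -1 → k ≠ 2 → e * (-1) ^ i * (if K % 4 = 3 then -s else s) = 1) := by
    by_cases hK1 : K = 1
    · refine ⟨1, Or.inl rfl, fun _ => rfl, fun h1 h2 => ?_⟩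
      subst hK1
      have hi' : i = 0 ∨ i = 1 := by omega
      rcases he with rfl | rfl <;> rcases hi' with rfl | rfl <;> simp at hkK ⊢
      · exact absurd hkK h2
      · exact absurd hkK h1
    · have hi' : i = 0 ∨ i = 1 := by omega
      refine ⟨e * (-1) ^ i * (if K % 4 = 3 then -1 else 1), ?_, fun h => absurd h hK1,
        fun _ _ => ?_⟩
      · split_ifs <;> rcases he with rfl | rfl <;> rcases hi' with rfl | rfl <;> simp
      · split_ifs <;> rcases he with rfl | rfl <;> rcases hi' with rfl | rfl <;> norm_num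
  have hw : IsCoprime (2 : ℤ) (K : ℤ) := by
    have h1 : Nat.Coprime 2 K := (Nat.coprime_two_left).2 hKo
    exact_mod_cast Nat.isCoprime_iff_coprime.2 h1
  obtain ⟨T, u, v, hu, hv, huv, hvK, hJ, hT⟩ := hres K 3 3 2 s hKo hKs hw ⟨hs, hs1⟩
  have hTl : ∀ l : ℕ, l.Prime → (l : ℤ) ∣ (K : ℤ) → ¬ (l : ℤ) ∣ T ∧ ¬ (l : ℤ) ∣ (T - 4) ∧
      ¬ (l : ℤ) ∣ v ∧ l ≠ 2 := by
    intro l hl hd
    have : Fact l.Prime := ⟨hl⟩
    obtain ⟨h1, h2⟩ := hT l hd
    refine ⟨leg_ne (by rw [h1]; norm_num), leg_ne (by rw [h2]; norm_num), ?_, ?_⟩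
    · intro hv'
      have h3 := hvK.isUnit_of_dvd' hv' hd
      exact (Nat.prime_iff_prime_int.1 hl).not_isUnit h3
    · rintro rfl
      have h3 : 2 ∣ K := by exact_mod_cast hd
      have h4 := Nat.odd_iff.1 hKo
      omega
  have huvl : ∀ l : ℕ, (l : ℤ) ∣ (K : ℤ) → 2 * u ≡ T * v [ZMOD l] := fun l hd => huv.of_dvd hd
  have hcu : IsCoprime u ((8 * K : ℕ) : ℤ) := by
    apply cop_of u K hK0
    · have h38 : u % 8 = 3 := hu
      omega
    · intro l hl hd hlu
      obtain ⟨h1, h2, h3, h4⟩ := hTl l hl hd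
      have h5 := (huvl l hd).symm.dvd
      have h6 : (l : ℤ) ∣ T * v := by
        have : (l : ℤ) ∣ 2 * u := Dvd.dvd.mul_left hlu 2
        have h7 := dvd_sub this h5
        simpa using h7
      rcases (Nat.prime_iff_prime_int.1 hl).dvd_or_dvd h6 with h7 | h7
      · exact h1 h7
      · exact h3 h7
  have hcv : IsCoprime v ((8 * K : ℕ) : ℤ) := by
    apply cop_of v K hK0
    · have h38v : v % 8 = 3 := hv
      omega
    · intro l hl hd
      exact (hTl l hl hd).2.2.1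
  have hcw : IsCoprime (-1 * u + 2 * v) ((8 * K : ℕ) : ℤ) := by
    apply cop_of _ K hK0
    · have h38v : v % 8 = 3 := hv
      have h38 : u % 8 = 3 := hu
      omega
    · intro l hl hd hlw
      obtain ⟨h1, h2, h3, h4⟩ := hTl l hl hd
      have h5 := (huvl l hd).symm.dvd
      have h6 : (l : ℤ) ∣ (T - 4) * v := by
        have h7 : (l : ℤ) ∣ 2 * (-1 * u + 2 * v) := Dvd.dvd.mul_left hlw 2
        have h8 := dvd_add h7 h5
        have h9 : 2 * (-1 * u + 2 * v) + (2 * u - T * v) = -((T - 4) * v) := by ring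
        rw [h9] at h8
        exact (dvd_neg).1 h8
      rcases (Nat.prime_iff_prime_int.1 hl).dvd_or_dvd h6 with h7 | h7
      · exact h2 h7
      · exact h3 h7
  obtain ⟨p, q, r, hp, hq, hr, hNp, hNq, hpq, hpu, hqv, hrpq⟩ := han (-1) 2 u v (8 * K)
    (by norm_num) (by norm_num) (by norm_num) (by omega) ⟨4 * K, by ring⟩ hcu hcv hcw
    (Or.inr (by norm_num)) N
  have h8K : (8 : ℤ) ∣ ((8 * K : ℕ) : ℤ) := ⟨K, by push_cast; ring⟩
  have hKK : (K : ℤ) ∣ ((8 * K : ℕ) : ℤ) := ⟨8, by push_cast; ring⟩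
  have hp8 : p % 8 = 3 := by
    have h1 : (p : ℤ) ≡ 3 [ZMOD 8] := (hpu.of_dvd h8K).trans hu
    have h2 : (p : ℤ) % 8 = 3 := h1
    omega
  have hq8 : q % 8 = 3 := by
    have h1 : (q : ℤ) ≡ 3 [ZMOD 8] := (hqv.of_dvd h8K).trans hv
    have h2 : (q : ℤ) % 8 = 3 := h1
    omega
  refine ⟨p, q, r, hNp, ⟨hk, hp, hq, hr, hp8, hq8, by rw [hrpq]; ring, hpq, ?_⟩, ?_⟩
  · intro l hlf hl2 hlk
    have hl := hlf.out
    rw [hkK] at hlk
    have hlK := dvd_of e i K l hl hl2 he hlk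
    obtain ⟨h1, h2⟩ := hT l hlK
    obtain ⟨h3, h4, h5, -⟩ := hTl l hl hlK
    have hlM : (l : ℤ) ∣ ((8 * K : ℕ) : ℤ) := hlK.trans hKK
    have hpl : (p : ℤ) ≡ u [ZMOD l] := hpu.of_dvd hlM
    have hql : (q : ℤ) ≡ v [ZMOD l] := hqv.of_dvd hlM
    have h2p : 2 * (p : ℤ) ≡ T * q [ZMOD l] :=
      (hpl.mul_left 2).trans ((huvl l hlK).trans (hql.symm.mul_left T))
    have hql0 : ¬ (l : ℤ) ∣ (q : ℤ) := by
      intro hd
      apply h5
      have h6 := hql.dvd
      have h7 := dvd_add hd h6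
      simpa using h7
    have h40 : ¬ (l : ℤ) ∣ (2 : ℤ) := by
      intro hd
      have h6 : l ∣ 2 := by exact_mod_cast hd
      exact hl2 ((Nat.prime_dvd_prime_iff_eq hl Nat.prime_two).1 h6)
    constructor
    · have h6 : 2 * (p : ℤ) * q ≡ T * (q * q) [ZMOD l] := by
        have := h2p.mul_right (q : ℤ)
        rwa [mul_assoc T] at this
      rw [leg_congr h6, legendreSym.mul, h1, leg_sq hql0]
      norm_num
    · have h6 : (2 * 2) * (-((p : ℤ) * r)) ≡ T * (T - 4) * (q * q) [ZMOD l] := by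
        have h7 : 2 * (r : ℤ) ≡ (4 - T) * q [ZMOD l] := by
          rw [hrpq]
          have h8 : 2 * (-1 * (p : ℤ) + 2 * q) = 4 * q - 2 * p := by ring
          have h9 : (4 - T) * (q : ℤ) = 4 * q - T * q := by ring
          rw [h8, h9]
          exact (Int.ModEq.refl _).sub h2p
        have h8 := (h2p.mul h7).neg
        have h9 : (2 * 2) * (-((p : ℤ) * r)) = -(2 * (p : ℤ) * (2 * r)) := by ring
        have h10 : T * (T - 4) * ((q : ℤ) * q) = -(T * q * ((4 - T) * q)) := by ring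
        rw [h9, h10]
        exact h8
      have h7 := leg_congr h6
      rw [legendreSym.mul, leg_sq h40, one_mul, legendreSym.mul, legendreSym.mul, h1, h2,
        leg_sq hql0] at h7
      rw [h7]
      norm_num
  · intro hk1 hk2 hqf
    have hq2 : q ≠ 2 := by
      rintro rfl
      omega
    rw [hkK, legendreSym.mul, legendreSym.mul]
    have hm1 : legendreSym q (-1) = -1 := by
      rw [legendreSym.at_neg_one hq2, ZMod.χ₄_nat_three_mod_four (by omega)]
    have h2 : legendreSym q 2 = -1 := by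
      rw [legendreSym.at_two hq2, ZMod.χ₈_nat_eq_if_mod_eight]
      have : ¬ q % 2 = 0 := by omega
      simp [this, hq8]
    have hee : legendreSym q e = e := by
      rcases he with rfl | rfl
      · exact legendreSym.at_one q
      · exact hm1
    have h2i : legendreSym q (2 ^ i) = (-1) ^ i := by
      have hi' : i = 0 ∨ i = 1 := by omega
      rcases hi' with rfl | rfl
      · rw [pow_zero, pow_zero]
        exact legendreSym.at_one q
      · rw [pow_one, pow_one]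
        exact h2
    have hqo : Odd q := hq.odd_of_ne_two hq2
    have hKq : legendreSym q (K : ℤ) = if K % 4 = 3 then -s else s := by
      rw [jacobiSym.legendreSym.to_jacobiSym, ← jacobiSym.quadratic_reciprocity_if (Nat.odd_iff.1 hKo) (Nat.odd_iff.1 hqo)]
      have h6 : jacobiSym (q : ℤ) K = s := by
        rw [← hJ, jacobiSym.mod_left, jacobiSym.mod_left v]
        congr 1
        exact hqv.of_dvd hKK
      rw [h6]
      have h7 : q % 4 = 3 := by omega
      simp only [h7, and_true]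
    rw [hee, h2i, hKq]
    exact hss hk1 hk2

end Pool.Agent.G02.H25
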